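import Pool.Agent.Lib.MP_644796_gt.Family

/-!
# Zeros of Alexander polynomials of alternating knots have unbounded real parts

The definitions are in `Pool.Agent.Lib.MP_644796_gt.KnotDiagram` and the proof is in
`Pool.Agent.Lib.MP_644796_gt.Family`.
-/

namespace Pool.Agent.Results.MP_644796_gt.UnboundedZeros

open Pool.Agent.Lib.MP_644796_gt

/-- For every real `C` there is an alternating knot diagram `D` and a nonzero complex number `z`
with real part greater than `C` which is a zero of the Alexander polynomial of `D`; here `p₀` is
the passage whose row and column are removed from the Alexander matrix. -/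
theorem result : ∀ C : ℝ, ∃ D : KnotDiagram, D.IsAlternating ∧ ∃ z : ℂ, z ≠ 0 ∧ C < z.re ∧
    ∀ p₀ : D.V × Bool, D.alexander p₀ ≠ 0 ∧ Polynomial.aeval z (D.alexander p₀) = 0 :=
  unbounded_zeros

end Pool.Agent.Results.MP_644796_gt.UnboundedZeros
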